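import Pool.Agent.Q80.TM.Fin

/-!
Moments of the Riemann zeta function with `2k` independent complex shifts of size `1 / log T`, in
Gaussian windows of any width between `1` and `T / log T`: compactness, the symmetries of all
limits, and the determination of the limit by its values on small sets of shifts.
-/

set_option autoImplicit false

open MeasureTheory Filter Topology Set ComplexConjugate

namespace Pool.Agent.Results.MP_069854_nt.IndependentShifts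

/-- The `2k`-th moment of `ζ` on the critical line in the Gaussian window with centre `T` and
width `U`. -/
noncomputable def M (k : ℕ) (T U : ℝ) : ℝ :=
  ∫ t : ℝ, ‖riemannZeta (1 / 2 + t * Complex.I)‖ ^ (2 * k) * Real.exp (-((t - T) / U) ^ 2)

/-- The shifted moment: `k` factors `ζ(1/2 + i (t + z / log T))` and `k` factors
`ζ(1/2 - i (t + z / log T))`, with independent complex shifts `z`. -/
noncomputable def S (k : ℕ) (T U : ℝ) (z : Fin k ⊕ Fin k → ℂ) : ℂ :=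
  ∫ t : ℝ, (∏ i : Fin k, riemannZeta (1 / 2 + (t + z (Sum.inl i) / Real.log T) * Complex.I)) *
    (∏ i : Fin k, riemannZeta (1 / 2 - (t + z (Sum.inr i) / Real.log T) * Complex.I)) *
    (Real.exp (-((t - T) / U) ^ 2) : ℂ)

/-- The normalisation by the phase of Hardy's function. -/
noncomputable def Psi {k : ℕ} (Φ : (Fin k ⊕ Fin k → ℂ) → ℂ) (z : Fin k ⊕ Fin k → ℂ) : ℂ :=
  Complex.exp (Complex.I / 2 * ((∑ i : Fin k, z (Sum.inl i)) - ∑ i : Fin k, z (Sum.inr i))) * Φ z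

theorem M_eq (k : ℕ) (T U : ℝ) : M k T U = Q97.MM.JJ k T U (1 / 2) := by
  unfold M Q97.MM.JJ Q97.MM.wt
  norm_num

theorem S_eq (k : ℕ) (T U : ℝ) (z : Fin k ⊕ Fin k → ℂ) : S k T U z = Q80.TM.SS k T U z := by
  unfold S Q80.TM.SS Q80.TM.ff Q80.TM.zp Q80.TM.zm Q97.MM.wt
  norm_num

theorem Psi_eq {k : ℕ} (Φ : (Fin k ⊕ Fin k → ℂ) → ℂ) (z : Fin k ⊕ Fin k → ℂ) :
    Psi Φ z = Q80.TM.Ps Φ z := rfl

theorem result (k : ℕ) (hk : 1 ≤ k) (T U : ℕ → ℝ) (hT : Tendsto T atTop atTop)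
    (hU : ∀ j, 1 ≤ U j ∧ U j ≤ T j / Real.log (T j)) :
    (∃ φ : ℕ → ℕ, StrictMono φ ∧ ∃ Φ : (Fin k ⊕ Fin k → ℂ) → ℂ, Differentiable ℂ Φ ∧
      (∀ z, Tendsto (fun j => S k (T (φ j)) (U (φ j)) z / (M k (T (φ j)) (U (φ j)) : ℂ)) atTop
        (𝓝 (Φ z))) ∧ Φ 0 = 1 ∧
      (∀ (σ : Equiv.Perm (Fin k ⊕ Fin k)) z, Psi Φ (z ∘ σ) = Psi Φ z) ∧
      (∀ (c : ℂ) z, Psi Φ (fun i => z i + c) = Psi Φ z) ∧
      (∀ z, Psi Φ (fun i => conj (z i)) = conj (Psi Φ z)) ∧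
      (∀ z, ‖Psi Φ z‖ ≤ ∏ i, Real.cosh (k * (z i).im) ^ (1 / (2 * k : ℝ))) ∧
      ∀ (n : ℕ) (x : Fin n → Fin k → ℝ) (c : Fin n → ℂ),
        0 ≤ (∑ a, ∑ b, c a * conj (c b) *
          Φ (Sum.elim (fun i => (x a i : ℂ)) (fun i => (x b i : ℂ)))).re ∧
        (∑ a, ∑ b, c a * conj (c b) *
          Φ (Sum.elim (fun i => (x a i : ℂ)) (fun i => (x b i : ℂ)))).im = 0) ∧
    (∀ N : ℕ → ℝ, (∀ j, 0 < N j) → ∀ P : Fin k ⊕ Fin k → Set ℂ,
      (∀ i, ∃ x : ℂ, AccPt x (𝓟 (P i))) →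
      (∀ z, (∀ i, z i ∈ P i) →
        ∃ l : ℂ, Tendsto (fun j => S k (T j) (U j) z / (N j : ℂ)) atTop (𝓝 l)) →
      (∃ l : ℝ, Tendsto (fun j => M k (T j) (U j) / N j) atTop (𝓝 l)) ∧
      ∃ G : (Fin k ⊕ Fin k → ℂ) → ℂ, Differentiable ℂ G ∧
        (∀ z, Tendsto (fun j => S k (T j) (U j) z / (N j : ℂ)) atTop (𝓝 (G z))) ∧
        ∀ H : (Fin k ⊕ Fin k → ℂ) → ℂ, Differentiable ℂ H →
          (∀ z, (∀ i, z i ∈ P i) → G z = H z) → G = H) ∧
    (∀ N : ℕ → ℝ, (∀ j, 0 < N j) → ∀ v : Fin k ⊕ Fin k → ℂ, ∀ A : Set ℂ,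
      (∃ x : ℂ, AccPt x (𝓟 A)) →
      (∀ c ∈ A, ∃ l : ℂ, Tendsto (fun j => S k (T j) (U j) (fun i => c * v i) / (N j : ℂ)) atTop
        (𝓝 l)) →
      (∃ l : ℝ, Tendsto (fun j => M k (T j) (U j) / N j) atTop (𝓝 l)) ∧
      ∃ G : ℂ → ℂ, Differentiable ℂ G ∧
        (∀ c, Tendsto (fun j => S k (T j) (U j) (fun i => c * v i) / (N j : ℂ)) atTop
          (𝓝 (G c))) ∧
        ∀ H : ℂ → ℂ, Differentiable ℂ H → (∀ c ∈ A, G c = H c) → G = H) := by
  have hJ := Q80.TM.seq_ev (Q80.TM.JJ_pos k) hT hU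
  have hgd := Q80.TM.hs_gd hk hT hU
  -- the common normalisation
  have h0 : ∀ᶠ j in atTop, Q80.TM.hs k T U j 0 = 1 := by
    filter_upwards [hJ] with j hj
    unfold Q80.TM.hs
    rw [Q80.TM.SS_zero]
    exact div_self (by exact_mod_cast hj.ne')
  have hr : ∀ N : ℕ → ℝ, (∀ j, 0 < N j) → ∀ j, 0 ≤ M k (T j) (U j) / N j := fun N hN j =>
    div_nonneg (integral_nonneg fun t => by positivity) (hN j).le
  have hscale : ∀ N : ℕ → ℝ, (∀ j, 0 < N j) → ∀ z : Fin k ⊕ Fin k → ℂ, ∀ l : ℂ,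
      Tendsto (fun j => S k (T j) (U j) z / (N j : ℂ)) atTop (𝓝 l) ↔
      Tendsto (fun j => ((M k (T j) (U j) / N j : ℝ) : ℂ) * Q80.TM.hs k T U j z) atTop
        (𝓝 l) := by
    intro N hN z l
    refine tendsto_congr' ?_
    filter_upwards [hJ] with j hj
    have h1 : (Q97.MM.JJ k (T j) (U j) (1 / 2) : ℂ) ≠ 0 := by exact_mod_cast hj.ne'
    have h2 : (N j : ℂ) ≠ 0 := by exact_mod_cast (hN j).ne'
    unfold Q80.TM.hs
    rw [M_eq, S_eq]
    push_cast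
    field_simp
  have hM : ∀ N : ℕ → ℝ, (∀ j, 0 < N j) → (∃ w : ℂ, Tendsto (fun j =>
      ((M k (T j) (U j) / N j : ℝ) : ℂ) * Q80.TM.hs k T U j 0) atTop (𝓝 w)) →
      ∃ l : ℝ, Tendsto (fun j => M k (T j) (U j) / N j) atTop (𝓝 l) := by
    rintro N hN ⟨w, hw⟩
    refine ⟨w.re, ((Complex.continuous_re.tendsto _).comp hw).congr' ?_⟩
    filter_upwards [h0] with j hj
    show (((M k (T j) (U j) / N j : ℝ) : ℂ) * Q80.TM.hs k T U j 0).re = _
    rw [hj, mul_one, Complex.ofReal_re]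
  refine ⟨?_, fun N hN P hP hc => ?_, fun N hN v A hA hc => ?_⟩
  · obtain ⟨φ, hφ, Φ, hd, hlim⟩ := hgd.montel
    have hT' : Tendsto (fun j => T (φ j)) atTop atTop := hT.comp hφ.tendsto_atTop
    have hU' : ∀ j, 1 ≤ U (φ j) ∧ U (φ j) ≤ T (φ j) / Real.log (T (φ j)) := fun j => hU (φ j)
    have hlim' : ∀ y, Tendsto (fun j => Q80.TM.hs k (fun j => T (φ j)) (fun j => U (φ j)) j y)
        atTop (𝓝 (Φ y)) := hlim
    refine ⟨φ, hφ, Φ, hd, fun z => ?_, ?_, fun σ z => ?_, fun c z => ?_, fun z => ?_,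
      fun z => ?_, fun n x c => ?_⟩
    · simp only [M_eq, S_eq]
      exact hlim z
    · refine tendsto_nhds_unique (hlim 0) ?_
      refine tendsto_const_nhds.congr' ?_
      filter_upwards [hφ.tendsto_atTop.eventually h0] with j hj using hj.symm
    · exact Q80.TM.Ps_symm hk hT' hU' hlim' σ z
    · exact Q80.TM.Ps_trans hk hT' hU' hd hlim' c z
    · exact Q80.TM.Ps_conj hk hT' hU' hlim' z
    · exact Q80.TM.Ps_bound hk hT' hU' hlim' z
    · exact Q80.TM.Ph_psd hk hT' hU' hlim' x c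
  · have hDt : Q80.TM.Dt (Set.pi Set.univ P) := Q80.TM.Dt.pi fun i => by
      obtain ⟨x, hx⟩ := hP i
      exact Q80.TM.Dt.of_acc hx
    obtain ⟨G, hG, hG'⟩ := hgd.scaled h0 (hr N hN) hDt fun z hz => by
      obtain ⟨l, hl⟩ := hc z fun i => hz i (Set.mem_univ i)
      exact ⟨l, (hscale N hN z l).1 hl⟩
    refine ⟨hM N hN ⟨_, hG' 0⟩, G, hG, fun z => (hscale N hN z _).2 (hG' z),
      fun H hH heq => funext fun z => ?_⟩
    have := hDt _ (hG.sub hH) (fun y hy => by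
      show G y - H y = 0
      rw [heq y fun i => hy i (Set.mem_univ i), sub_self]) z
    exact sub_eq_zero.1 this
  · obtain ⟨x, hx⟩ := hA
    have hDt := Q80.TM.Dt.of_acc hx
    have e0 : ∀ j, Q80.TM.hs k T U j ((0 : ℂ) • v) = Q80.TM.hs k T U j 0 := fun j => by
      rw [zero_smul]
    obtain ⟨G, hG, hG'⟩ := (hgd.line v).scaled (y₀ := 0) (h0.mono fun j hj => by
      rw [e0, hj]) (hr N hN) hDt fun c hc' => by
      obtain ⟨l, hl⟩ := hc c hc'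
      exact ⟨l, (hscale N hN _ l).1 hl⟩
    refine ⟨hM N hN ⟨G 0, (hG' 0).congr fun j => by rw [e0]⟩, G, hG,
      fun c => (hscale N hN _ _).2 (hG' c), fun H hH heq => funext fun c => ?_⟩
    have := hDt _ (hG.sub hH) (fun y hy => by
      show G y - H y = 0
      rw [heq y hy, sub_self]) c
    exact sub_eq_zero.1 this

end Pool.Agent.Results.MP_069854_nt.IndependentShifts
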