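import Pool.Agent.Q97.UM.Base11

set_option autoImplicit false

/-!
# MP_069854_nt: joint large deviations of zeta at shifted points of the critical line

Unconditionally, for any bounded number of real shifts `α_j` (of any size up to `T / 2`, close together or far apart) and any bounded real
exponents `k_j` of either sign, the set of `t` in `[T, 2T]` where all `log |ζ(1/2 + i(t + α_j))|` are equal to the values which the law
weighted by `∏ |ζ(1/2 + i(t + α_j))| ^ (2 k_j)` should favour, up to `C √(log log T)`, has measure at least the conjectured one up to a factor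
`exp (C √(log log T))`. Hence the lower bounds, up to such a factor, for all shifted moments with real exponents of either sign.
-/

namespace Pool.Agent.Results.MP_069854_nt.JointLargeDeviations

open Filter Topology MeasureTheory Complex

noncomputable section

/-- `ζ(1/2 + it)` -/
def line (t : ℝ) : ℂ := riemannZeta (1 / 2 + t * I)

/-- the value of `log |ζ(1/2 + i(t + α_j))|` favoured by the weight with exponents `2 k_l` at the shifts `α_l` -/
def favoured {n : ℕ} (T : ℝ) (k α : Fin n → ℝ) (j : Fin n) : ℝ :=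
  ∑ l, k l * Real.log ‖riemannZeta (1 + 1 / Real.log T + (α j - α l : ℝ) * I)‖

/-- the set of `t` in `[T, 2T]` where every `log |ζ(1/2 + i(t + α_j))|` is within `R` of its favoured value -/
def Near {n : ℕ} (T R : ℝ) (k α : Fin n → ℝ) : Set ℝ :=
  {t : ℝ | T ≤ t ∧ t ≤ 2 * T ∧ ∀ j, |Real.log ‖line (t + α j)‖ - favoured T k α j| ≤ R}

/-- the integral of `∏_j |ζ(1/2 + i(t + α_j))| ^ (2 k_j)` over `[T, 2T]`, possibly infinite -/
def shiftedMoment {n : ℕ} (T : ℝ) (k α : Fin n → ℝ) : ENNReal :=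
  ∫⁻ t in Set.Icc T (2 * T), ∏ j, ENNReal.ofReal ‖line (t + α j)‖ ^ (2 * k j)

lemma near_meas {n : ℕ} (T R : ℝ) (k α : Fin n → ℝ) : MeasurableSet (Near T R k α) :=
  Pool.Agent.Q184.UM.J.meas_S T R α (favoured T k α)

lemma zeros_null {n : ℕ} (α : Fin n → ℝ) : volume {t : ℝ | ∃ j, line (t + α j) = 0} = 0 := by
  have h1 : {t : ℝ | ∃ j, line (t + α j) = 0} = ⋃ j, {t : ℝ | line (t + α j) = 0} := by
    ext t
    simp
  rw [h1]
  apply Set.Countable.measure_zero
  apply Set.countable_iUnion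
  intro j
  have h2 : {t : ℝ | line (t + α j) = 0} = (fun t => t + α j) ⁻¹' {t : ℝ | line t = 0} := rfl
  rw [h2]
  exact Set.Countable.preimage Pool.Agent.Q98.UM.countable_zt (add_left_injective (α j))

/-- the integrand on the set -/
lemma point {n : ℕ} {A T R t : ℝ} {k α : Fin n → ℝ} (hk : ∑ j, |k j| ≤ A) (hR : 0 ≤ R) (ht : t ∈ Near T R k α)
    (hz : ¬ ∃ j, line (t + α j) = 0) :
    ENNReal.ofReal (Real.exp (2 * ∑ j, k j * favoured T k α j - 2 * A * R)) ≤ ∏ j, ENNReal.ofReal ‖line (t + α j)‖ ^ (2 * k j) := by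
  rw [not_exists] at hz
  have h1 : ∏ j, ENNReal.ofReal ‖line (t + α j)‖ ^ (2 * k j) = ENNReal.ofReal (Real.exp (∑ j, 2 * k j * Real.log ‖line (t + α j)‖)) := by
    rw [Real.exp_sum, ENNReal.ofReal_prod_of_nonneg (fun _ _ => (Real.exp_pos _).le)]
    apply Finset.prod_congr rfl
    intro j _
    have h2 : 0 < ‖line (t + α j)‖ := norm_pos_iff.2 (hz j)
    rw [ENNReal.ofReal_rpow_of_pos h2, Real.rpow_def_of_pos h2, mul_comm (Real.log _)]
  rw [h1]
  apply ENNReal.ofReal_le_ofReal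
  apply Real.exp_le_exp.2
  have h3 : ∀ j, 2 * (k j * favoured T k α j) - 2 * (|k j| * R) ≤ 2 * k j * Real.log ‖line (t + α j)‖ := by
    intro j
    have h4 : |k j * (favoured T k α j - Real.log ‖line (t + α j)‖)| ≤ |k j| * R := by
      rw [abs_mul, abs_sub_comm]
      exact mul_le_mul_of_nonneg_left (ht.2.2 j) (abs_nonneg _)
    have h5 := (abs_le.1 h4).2
    linarith
  have h6 : ∑ j, (2 * (k j * favoured T k α j) - 2 * (|k j| * R)) ≤ ∑ j, 2 * k j * Real.log ‖line (t + α j)‖ :=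
    Finset.sum_le_sum fun j _ => h3 j
  rw [Finset.sum_sub_distrib, ← Finset.mul_sum, ← Finset.mul_sum, ← Finset.sum_mul] at h6
  have h7 : (∑ j, |k j|) * R ≤ A * R := mul_le_mul_of_nonneg_right hk hR
  linarith

lemma prod_eq {n : ℕ} {T : ℝ} (hT : 0 < Real.log T) (k α : Fin n → ℝ) :
    ∏ j, ∏ l, ‖riemannZeta (1 + 1 / Real.log T + (α j - α l : ℝ) * I)‖ ^ (k j * k l) = Real.exp (∑ j, k j * favoured T k α j) := by
  rw [Real.exp_sum]
  apply Finset.prod_congr rfl
  intro j _
  unfold favoured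
  rw [Finset.mul_sum, Real.exp_sum]
  apply Finset.prod_congr rfl
  intro l _
  have h1 : 0 < ‖riemannZeta (1 + 1 / Real.log T + (α j - α l : ℝ) * I)‖ := by
    rw [norm_pos_iff]
    apply riemannZeta_ne_zero_of_one_le_re
    have h2 : (1 + 1 / Real.log T + (α j - α l : ℝ) * I : ℂ).re = 1 + 1 / Real.log T := by
      have h3 : (1 / (Real.log T : ℂ)) = ((1 / Real.log T : ℝ) : ℂ) := by push_cast; ring
      rw [h3]
      simp
    rw [h2]
    have : 0 < 1 / Real.log T := by positivity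
    linarith
  rw [Real.rpow_def_of_pos h1]
  congr 1
  ring

/-- **joint large deviations at shifted points, and shifted moments** -/
theorem result : ∀ A : ℝ, ∃ C T₀ : ℝ, 0 ≤ C ∧ ∀ T : ℝ, T₀ ≤ T → ∀ (n : ℕ) (k α : Fin n → ℝ),
    (n : ℝ) ≤ A → ∑ j, |k j| ≤ A → (∀ j, |α j| ≤ T / 2) →
    T * (∏ j, ∏ l, ‖riemannZeta (1 + 1 / Real.log T + (α j - α l : ℝ) * I)‖ ^ (-(k j * k l))) *
        Real.exp (-(C * Real.sqrt (Real.log (Real.log T)))) ≤
      volume.real (Near T (C * Real.sqrt (Real.log (Real.log T))) k α) ∧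
    ENNReal.ofReal (T * (∏ j, ∏ l, ‖riemannZeta (1 + 1 / Real.log T + (α j - α l : ℝ) * I)‖ ^ (k j * k l)) *
        Real.exp (-(C * Real.sqrt (Real.log (Real.log T))))) ≤ shiftedMoment T k α := by
  intro A₀
  obtain ⟨A, hAd⟩ : ∃ A : ℝ, A = max A₀ 1 := ⟨_, rfl⟩
  have hA1 : 1 ≤ A := by rw [hAd]; exact le_max_right _ _
  obtain ⟨C, hC, h⟩ := Pool.Agent.Q97.UM.b_JLD A hA1
  obtain ⟨T₁, hT₁⟩ := eventually_atTop.1 (h.and (eventually_ge_atTop 16))
  refine ⟨C + 2 * A * C, T₁, by positivity, ?_⟩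
  intro T hT n k α hn hk hα
  obtain ⟨h1, h16⟩ := hT₁ T hT
  have hn' : (n : ℝ) ≤ A := hn.trans (by rw [hAd]; exact le_max_left _ _)
  have hk' : ∑ j, |k j| ≤ A := hk.trans (by rw [hAd]; exact le_max_left _ _)
  have h2 := h1 n k α hn' hk' hα
  have hL : 0 < Real.log T := Real.log_pos (by linarith)
  have hT0 : 0 < T := by linarith
  obtain ⟨s, hs⟩ : ∃ s : ℝ, s = Real.sqrt (Real.log (Real.log T)) := ⟨_, rfl⟩
  have hs0 : 0 ≤ s := by rw [hs]; exact Real.sqrt_nonneg _
  rw [← hs] at h2 ⊢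
  have hset : {t : ℝ | T ≤ t ∧ t ≤ 2 * T ∧ ∀ j, |Real.log ‖Pool.Agent.Q97.UM.zt (t + α j)‖ - Pool.Agent.Q97.UM.Pre T k α j| ≤ C * s} =
    Near T (C * s) k α := rfl
  rw [hset] at h2
  have hfav : ∑ j, k j * Pool.Agent.Q97.UM.Pre T k α j = ∑ j, k j * favoured T k α j := rfl
  rw [hfav] at h2
  have hfin : ∀ R : ℝ, volume (Near T R k α) ≠ ⊤ := by
    intro R
    refine ne_top_of_le_ne_top ?_ (measure_mono (show Near T R k α ⊆ Set.Icc T (2 * T) from fun t ht => ⟨ht.1, ht.2.1⟩))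
    rw [Real.volume_Icc]
    exact ENNReal.ofReal_ne_top
  have hCs : 0 ≤ C * s := by positivity
  have hACs : 0 ≤ 2 * A * C * s := by positivity
  constructor
  · have h3 : Near T (C * s) k α ⊆ Near T ((C + 2 * A * C) * s) k α := by
      rintro t ⟨a1, a2, a3⟩
      refine ⟨a1, a2, fun j => (a3 j).trans ?_⟩
      linarith
    have h4 : volume.real (Near T (C * s) k α) ≤ volume.real (Near T ((C + 2 * A * C) * s) k α) :=
      measureReal_mono h3 (hfin _)
    refine le_trans ?_ (h2.trans h4)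
    have h5 : ∏ j, ∏ l, ‖riemannZeta (1 + 1 / Real.log T + (α j - α l : ℝ) * I)‖ ^ (-(k j * k l)) =
        Real.exp (-(∑ j, k j * favoured T k α j)) := by
      rw [Real.exp_neg, ← prod_eq hL, ← Finset.prod_inv_distrib]
      apply Finset.prod_congr rfl
      intro j _
      rw [← Finset.prod_inv_distrib]
      apply Finset.prod_congr rfl
      intro l _
      rw [Real.rpow_neg (norm_nonneg _)]
    rw [h5, mul_assoc, ← Real.exp_add]
    apply mul_le_mul_of_nonneg_left _ hT0.le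
    apply Real.exp_le_exp.2
    linarith
  · rw [prod_eq hL]
    unfold shiftedMoment
    obtain ⟨Z, hZ⟩ : ∃ Z : Set ℝ, Z = {t : ℝ | ∃ j, line (t + α j) = 0} := ⟨_, rfl⟩
    have hZ0 : volume Z = 0 := by rw [hZ]; exact zeros_null α
    obtain ⟨S, hSd⟩ : ∃ S : Set ℝ, S = Near T (C * s) k α := ⟨_, rfl⟩
    have hS1 : S ⊆ Set.Icc T (2 * T) := by
      rw [hSd]
      exact fun t ht => ⟨ht.1, ht.2.1⟩
    have hSm : MeasurableSet S := by rw [hSd]; exact near_meas _ _ _ _
    obtain ⟨m, hm⟩ : ∃ m : ℝ, m = Real.exp (2 * ∑ j, k j * favoured T k α j - 2 * A * (C * s)) := ⟨_, rfl⟩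
    have hm0 : 0 ≤ m := by rw [hm]; exact (Real.exp_pos _).le
    have h6 : ENNReal.ofReal m * volume S ≤ ∫⁻ t in S, ∏ j, ENNReal.ofReal ‖line (t + α j)‖ ^ (2 * k j) := by
      rw [← setLIntegral_const]
      apply lintegral_mono_ae
      rw [ae_restrict_iff' hSm]
      have h7 : ∀ᵐ t, t ∉ Z := by
        rw [ae_iff]
        simpa using hZ0
      filter_upwards [h7] with t ht hts
      rw [hm]
      rw [hSd] at hts
      exact point hk' hCs hts (by rw [hZ] at ht; exact ht)
    have h8 : ∫⁻ t in S, ∏ j, ENNReal.ofReal ‖line (t + α j)‖ ^ (2 * k j) ≤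
        ∫⁻ t in Set.Icc T (2 * T), ∏ j, ENNReal.ofReal ‖line (t + α j)‖ ^ (2 * k j) := lintegral_mono_set hS1
    refine le_trans ?_ (h6.trans h8)
    have h9 : volume S = ENNReal.ofReal (volume.real S) := by
      rw [Measure.real, ENNReal.ofReal_toReal]
      rw [hSd]
      exact hfin _
    rw [h9, ← ENNReal.ofReal_mul hm0]
    apply ENNReal.ofReal_le_ofReal
    have h10 : m * (T * Real.exp (-(∑ j, k j * favoured T k α j) - C * s)) ≤ m * volume.real S := by
      apply mul_le_mul_of_nonneg_left _ hm0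
      rw [hSd]
      exact h2
    refine le_trans (le_of_eq ?_) h10
    rw [hm, mul_assoc, ← Real.exp_add, mul_left_comm, ← Real.exp_add]
    congr 2
    ring

end

end Pool.Agent.Results.MP_069854_nt.JointLargeDeviations
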