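import Pool.Agent.Q97.RF.Li

/-!
# Increments of `log |ζ|` and of `log |P(D / log T) ζ|` under the moment measure

For every real `β > 0` let `M = ∫ |ζ(1/2+it)|^β w(t) dt`, `w(t) = exp(-((t-T)/U)²)`. For an
admissible polynomial `P` (nonzero, without two roots `μ`, `ν` such that `μ + conj ν = -1`; for
example `1`, `X^j`, `X + μ` with `Re μ ≠ 1/2`) let `g_P = ∑ c_k ζ^(k) / (log T)^k`. Then the
difference of the logarithms of `|g_P|` and `|g_Q|` at two points within `A / log T` of `1/2+it`
has all its moments bounded with respect to `|ζ(1/2+it)|^β w(t) dt / M`, uniformly in the windows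
`1 ≤ U ≤ T / log T` and in the points; the real parts of the points may depend on `t`.
-/

set_option autoImplicit false

open MeasureTheory Filter Metric Set
open scoped ENNReal ComplexConjugate

namespace Pool.Agent.Results.MP_069854_nt.LogarithmicIncrements

noncomputable section

/-- nonzero polynomials without two roots `μ`, `ν` such that `μ + conj ν = -1` -/
def Admissible (P : Polynomial ℂ) : Prop :=
  P ≠ 0 ∧ ∀ μ ν : ℂ, P.eval μ = 0 → P.eval ν = 0 → μ + conj ν ≠ -1

/-- the function `∑ c_k ζ^(k)(s) / L^k`, where the `c_k` are the coefficients of `P` -/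
def diffZeta (P : Polynomial ℂ) (L : ℝ) (s : ℂ) : ℂ :=
  ∑ k ∈ Finset.range (P.natDegree + 1), P.coeff k * iteratedDeriv k riemannZeta s / (L : ℂ) ^ k

/-- the Gaussian window of width `U` at `T` -/
def window (T U t : ℝ) : ℝ := Real.exp (-((t - T) / U) ^ 2)

/-- the density of the moment of order `β` in the window -/
def density (β T U t : ℝ) : ℝ := ‖riemannZeta (1 / 2 + t * Complex.I)‖ ^ β * window T U t

/-- the moment of order `β` in the window -/
def moment (β T U : ℝ) : ℝ := ∫ t : ℝ, density β T U t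

theorem moment_eq (β T U : ℝ) : moment β T U = Q97.RB.MB β T U (1 / 2) := by
  unfold moment density Q97.RB.MB
  have : ∀ t : ℝ, (1 / 2 + t * Complex.I : ℂ) = ((1 / 2 : ℝ) : ℂ) + t * Complex.I := by
    intro t
    norm_num
  simp only [this]
  rfl

theorem diffZeta_eq (P : Polynomial ℂ) (L : ℝ) : diffZeta P L = Q97.RF.dz P L := by
  funext s
  unfold diffZeta Q97.RF.dz
  rw [Polynomial.sum_over_range]
  intro k
  rw [zero_mul, zero_div]

theorem diffZeta_measurable (P : Polynomial ℂ) (L : ℝ) : Measurable (diffZeta P L) := by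
  apply measurable_of_continuousOn_compl_singleton 1
  have hA : AnalyticOnNhd ℂ riemannZeta {1}ᶜ := by
    refine DifferentiableOn.analyticOnNhd (fun s hs => ?_) isOpen_compl_singleton
    exact (differentiableAt_riemannZeta hs).differentiableWithinAt
  unfold diffZeta
  refine continuousOn_finsetSum _ fun k _ => ?_
  refine ContinuousOn.div_const (ContinuousOn.mul continuousOn_const ?_) _
  intro s hs
  exact (Q97.RF.id_analytic (hA s hs) k).continuousAt.continuousWithinAt

theorem pt_eq (t : ℝ) : (1 / 2 + t * Complex.I : ℂ) = Q97.RD.pp t := by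
  unfold Q97.RD.pp
  norm_num

theorem lq_abs {x y q : ℝ} (hq : 1 ≤ q) :
    |Real.log (x / y)| ^ q ≤ Q97.RF.lq x y ^ q + Q97.RF.lq y x ^ q := by
  have h1 : Real.log (y / x) = -Real.log (x / y) := by
    rw [← Real.log_inv, inv_div]
  have hn1 : 0 ≤ Q97.RF.lq x y := le_max_left _ _
  have hn2 : 0 ≤ Q97.RF.lq y x := le_max_left _ _
  rcases le_total 0 (Real.log (x / y)) with h | h
  · rw [abs_of_nonneg h]
    have h2 : Real.log (x / y) ≤ Q97.RF.lq x y := le_max_right _ _
    have h3 := Real.rpow_le_rpow h h2 (by linarith : 0 ≤ q)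
    have h4 := Real.rpow_nonneg hn2 q
    linarith
  · rw [abs_of_nonpos h, ← h1]
    have h2 : Real.log (y / x) ≤ Q97.RF.lq y x := le_max_right _ _
    have h3 := Real.rpow_le_rpow (by rw [h1]; linarith) h2 (by linarith : 0 ≤ q)
    have h4 := Real.rpow_nonneg hn1 q
    linarith

/-- points at height `t + y` with real part within `A / log T` of `1/2` -/
def Near (A T y : ℝ) (v : ℝ → ℂ) : Prop :=
  |y| ≤ A / Real.log T ∧ ∀ t, (v t).im = t + y ∧ |(v t).re - 1 / 2| ≤ A / Real.log T

theorem result (β : ℝ) (hβ : 0 < β) (q : ℝ) (hq : 1 ≤ q) (A : ℝ) (hA : 0 ≤ A) :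
    (∀ P Q : Polynomial ℂ, Admissible Q → ∃ C : ℝ, 0 < C ∧
      ∀ᶠ T : ℝ in atTop, ∀ U : ℝ, 1 ≤ U → U ≤ T / Real.log T →
        ∀ (z v : ℝ → ℂ) (y : ℝ), Near A T y v →
          (∀ t, ‖z t - (1 / 2 + t * Complex.I)‖ ≤ A / Real.log T) →
          ∫⁻ t in {t : ℝ | |t - T| ≤ U * Real.log T / 16},
            ENNReal.ofReal (max 0 (Real.log (‖diffZeta P (Real.log T) (z t)‖ /
              ‖diffZeta Q (Real.log T) (v t)‖)) ^ q * density β T U t) ≤
            ENNReal.ofReal (C * moment β T U)) ∧
    (∀ P Q : Polynomial ℂ, Admissible P → Admissible Q → ∃ C : ℝ, 0 < C ∧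
      ∀ᶠ T : ℝ in atTop, ∀ U : ℝ, 1 ≤ U → U ≤ T / Real.log T →
        ∀ (z v : ℝ → ℂ) (x y : ℝ), Measurable z → Measurable v → Near A T x z → Near A T y v →
          ∫⁻ t in {t : ℝ | |t - T| ≤ U * Real.log T / 16},
            ENNReal.ofReal (|Real.log (‖diffZeta P (Real.log T) (z t)‖ /
              ‖diffZeta Q (Real.log T) (v t)‖)| ^ q * density β T U t) ≤
            ENNReal.ofReal (C * moment β T U)) := by
  have hset : ∀ T U : ℝ, {t : ℝ | |t - T| ≤ U * Real.log T / 16} =
      {t : ℝ | |t - T| ≤ 1 / 16 * (U * Real.log T)} := by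
    intro T U
    ext t
    rw [Set.mem_ofPred_eq, Set.mem_ofPred_eq, div_eq_inv_mul]
    norm_num
  have hA2 : 0 ≤ 2 * A := by positivity
  have hone : ∀ P Q : Polynomial ℂ, Admissible Q → ∃ C : ℝ, 0 < C ∧
      ∀ᶠ T : ℝ in atTop, ∀ U : ℝ, 1 ≤ U → U ≤ T / Real.log T →
        ∀ (z v : ℝ → ℂ) (y : ℝ), Near A T y v →
          (∀ t, ‖z t - (1 / 2 + t * Complex.I)‖ ≤ 2 * A / Real.log T) →
          ∫⁻ t in {t : ℝ | |t - T| ≤ U * Real.log T / 16},
            ENNReal.ofReal (max 0 (Real.log (‖diffZeta P (Real.log T) (z t)‖ /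
              ‖diffZeta Q (Real.log T) (v t)‖)) ^ q * density β T U t) ≤
            ENNReal.ofReal (C * moment β T U) := by
    intro P Q hQ
    obtain ⟨C, hC, h⟩ := Q97.RF.log_P P (P₂ := Q) hQ hβ hq hA2
    refine ⟨C, hC, ?_⟩
    filter_upwards [h, eventually_ge_atTop 3] with T h1 hT U hU1 hU2 z v y hv hz
    have hL0 : 0 < Real.log T := Real.log_pos (by linarith)
    have hAL : A / Real.log T ≤ 2 * A / Real.log T := by
      gcongr
      linarith
    rw [moment_eq, diffZeta_eq, diffZeta_eq, hset]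
    unfold density
    simp only [pt_eq] at hz ⊢
    exact h1 U ⟨hT, hU1, hU2⟩ z v (fun t => Q97.RD.pp t) y hz
      (fun t => by rw [sub_self, norm_zero]; positivity) (hv.1.trans hAL) (fun t => (hv.2 t).1)
      (fun t => (hv.2 t).2.trans hAL)
  refine ⟨fun P Q hQ => ?_, fun P Q hP hQ => ?_⟩
  · obtain ⟨C, hC, h⟩ := hone P Q hQ
    refine ⟨C, hC, ?_⟩
    filter_upwards [h, eventually_ge_atTop 3] with T h1 hT U hU1 hU2 z v y hv hz
    have hL0 : 0 < Real.log T := Real.log_pos (by linarith)
    exact h1 U hU1 hU2 z v y hv fun t => (hz t).trans (by gcongr; linarith)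
  · obtain ⟨C₁, hC₁, h1⟩ := hone P Q hQ
    obtain ⟨C₂, hC₂, h2⟩ := hone Q P hP
    refine ⟨C₁ + C₂, by positivity, ?_⟩
    filter_upwards [h1, h2, eventually_ge_atTop 3] with T k1 k2 hT U hU1 hU2 z v x y hzm hvm hz hv
    have hL0 : 0 < Real.log T := Real.log_pos (by linarith)
    have hnear : ∀ (f : ℝ → ℂ) (a : ℝ), Near A T a f → ∀ t,
        ‖f t - (1 / 2 + t * Complex.I)‖ ≤ 2 * A / Real.log T := by
      intro f a hf t
      have e1 : (f t - (1 / 2 + t * Complex.I)).re = (f t).re - 1 / 2 := by simp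
      have e2 : (f t - (1 / 2 + t * Complex.I)).im = a := by
        simp [(hf.2 t).1]
      calc ‖f t - (1 / 2 + t * Complex.I)‖ ≤ |(f t - (1 / 2 + t * Complex.I)).re| +
            |(f t - (1 / 2 + t * Complex.I)).im| := Complex.norm_le_abs_re_add_abs_im _
        _ ≤ A / Real.log T + A / Real.log T := by
            rw [e1, e2]
            exact add_le_add (hf.2 t).2 hf.1
        _ = _ := by ring
    have m0 : 0 ≤ moment β T U := by
      rw [moment]
      exact integral_nonneg fun t => by unfold density window; positivity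
    have hmeas : Measurable fun t : ℝ => density β T U t := by
      have h3 := Q97.RD.zd_meas hβ T U
      have h4 : (fun t : ℝ => density β T U t) = Q97.RD.zd β T U := by
        funext t
        unfold density Q97.RD.zd
        rw [pt_eq]
        rfl
      rw [h4]
      exact h3
    have j1 := k1 U hU1 hU2 z v y hv (hnear z x hz)
    have j2 := k2 U hU1 hU2 v z x hz (hnear v y hv)
    set S := {t : ℝ | |t - T| ≤ U * Real.log T / 16} with hS
    set f₁ : ℝ → ℝ≥0∞ := fun t => ENNReal.ofReal (max 0 (Real.log (‖diffZeta P (Real.log T) (z t)‖ /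
      ‖diffZeta Q (Real.log T) (v t)‖)) ^ q * density β T U t) with hf₁
    set f₂ : ℝ → ℝ≥0∞ := fun t => ENNReal.ofReal (max 0 (Real.log (‖diffZeta Q (Real.log T) (v t)‖ /
      ‖diffZeta P (Real.log T) (z t)‖)) ^ q * density β T U t) with hf₂
    -- at each point one of the two functions vanishes
    have hpt : ∀ t, ENNReal.ofReal (|Real.log (‖diffZeta P (Real.log T) (z t)‖ /
        ‖diffZeta Q (Real.log T) (v t)‖)| ^ q * density β T U t) ≤ f₁ t + f₂ t := by
      intro t
      have hd : 0 ≤ density β T U t := by unfold density window; positivity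
      rw [hf₁, hf₂]
      simp only
      rw [← ENNReal.ofReal_add (by positivity) (by positivity)]
      apply ENNReal.ofReal_le_ofReal
      rw [← add_mul]
      exact mul_le_mul_of_nonneg_right (lq_abs hq) hd
    have hf₁m : Measurable f₁ := by
      have e1 := (diffZeta_measurable P (Real.log T)).comp hzm
      have e2 := (diffZeta_measurable Q (Real.log T)).comp hvm
      exact (((measurable_const.max ((e1.norm.div e2.norm).log)).pow_const q).mul
        hmeas).ennreal_ofReal
    calc _ ≤ ∫⁻ t in S, (f₁ t + f₂ t) := lintegral_mono hpt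
      _ = (∫⁻ t in S, f₁ t) + ∫⁻ t in S, f₂ t := lintegral_add_left hf₁m _
      _ ≤ ENNReal.ofReal (C₁ * moment β T U) + ENNReal.ofReal (C₂ * moment β T U) :=
          add_le_add j1 j2
      _ = _ := by
          rw [← ENNReal.ofReal_add (by positivity) (by positivity)]
          congr 1
          ring

end

end Pool.Agent.Results.MP_069854_nt.LogarithmicIncrements
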