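import Pool.Agent.Q80.VS.Bp

/-!
Moments of the Riemann zeta function with `2k` independent shifts of size `1 / log T`: near every
vertex of the spectral cube the limits are `λ` times the law of the row and column sums of the
nonnegative `k × k` matrices, that is, the corresponding term of the recipe.
-/

set_option autoImplicit false

open MeasureTheory Filter Topology Set ComplexConjugate
open scoped ContDiff

namespace Pool.Agent.Results.MP_069854_nt.VertexSpectrum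

/-- The `2k`-th moment of `ζ` on the critical line in the Gaussian window with centre `T` and
width `U`. -/
noncomputable def M (k : ℕ) (T U : ℝ) : ℝ :=
  ∫ t : ℝ, ‖riemannZeta (1 / 2 + t * Complex.I)‖ ^ (2 * k) * Real.exp (-((t - T) / U) ^ 2)

/-- The shifted moment: `k` factors `ζ(1/2 + i (t + z / log T))` and `k` factors
`ζ(1/2 - i (t + z / log T))`, with independent complex shifts `z`. -/
noncomputable def S (k : ℕ) (T U : ℝ) (z : Fin k ⊕ Fin k → ℂ) : ℂ :=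
  ∫ t : ℝ, (∏ i : Fin k, riemannZeta (1 / 2 + (t + z (Sum.inl i) / Real.log T) * Complex.I)) *
    (∏ i : Fin k, riemannZeta (1 / 2 - (t + z (Sum.inr i) / Real.log T) * Complex.I)) *
    (Real.exp (-((t - T) / U) ^ 2) : ℂ)

/-- The normalisation by the phase of Hardy's function. -/
noncomputable def Psi {k : ℕ} (Φ : (Fin k ⊕ Fin k → ℂ) → ℂ) (z : Fin k ⊕ Fin k → ℂ) : ℂ :=
  Complex.exp (Complex.I / 2 * ((∑ i : Fin k, z (Sum.inl i)) - ∑ i : Fin k, z (Sum.inr i))) * Φ z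

/-- The number `d_k(n)` of ordered factorisations of `n` into `k` positive factors. -/
def dk (k n : ℕ) : ℕ := (Nat.finMulAntidiag k n).card

/-- The Euler factor of the arithmetic constant `a_k` at the prime `p`. -/
noncomputable def eulerFactor (k : ℕ) (p : Nat.Primes) : ℝ :=
  (1 - 1 / (p : ℝ)) ^ (k ^ 2) * ∑' m : ℕ, (dk k ((p : ℕ) ^ m) : ℝ) ^ 2 / (p : ℝ) ^ m

/-- The arithmetic constant `a_k`. -/
noncomputable def ak (k : ℕ) : ℝ := ∏' p : Nat.Primes, eulerFactor k p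

/-- The Fourier transform `∫ p(ξ) e^{iξx} dξ`. -/
noncomputable def hat (p : ℝ → ℂ) (x : ℝ) : ℂ := ∫ ξ : ℝ, p ξ * Complex.exp (ξ * (x * Complex.I))

/-- The test function in the `2k` shifts attached to `p_1, …, p_k, q_1, …, q_k`. -/
noncomputable def test {k : ℕ} (p q : Fin k → ℝ → ℂ) (z : Fin k ⊕ Fin k → ℝ) : ℂ :=
  (∏ i : Fin k, hat (p i) (z (Sum.inl i))) * ∏ j : Fin k, conj (hat (q j) (z (Sum.inr j)))

/-- The integral of `∏ p_i(row sum i) ∏ conj q_j(column sum j)` over the `k × k` matrices with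
positive entries. -/
noncomputable def transport {k : ℕ} (p q : Fin k → ℝ → ℂ) : ℂ :=
  ∫ u : Fin k × Fin k → ℝ in Set.univ.pi fun _ : Fin k × Fin k => Ioi (0 : ℝ),
    (∏ i : Fin k, p i (∑ j, u (i, j))) * ∏ j : Fin k, conj (q j (∑ i, u (i, j)))

/-- Admissible test data: all functions are smooth with compact support, `p_i` vanishes on the
right of `θ_i ≥ 0` and `∑ θ_i < u`. -/
def Adm {k : ℕ} (u : ℝ) (p q : Fin k → ℝ → ℂ) : Prop :=
  (∀ i, ContDiff ℝ ∞ (p i) ∧ HasCompactSupport (p i)) ∧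
  (∀ i, ContDiff ℝ ∞ (q i) ∧ HasCompactSupport (q i)) ∧
  ∃ θ : Fin k → ℝ, (∀ i, 0 ≤ θ i ∧ ∀ x, θ i < x → p i x = 0) ∧ ∑ i, θ i < u

theorem M_eq (k : ℕ) (T U : ℝ) : M k T U = Q97.MM.JJ k T U (1 / 2) := by
  unfold M Q97.MM.JJ Q97.MM.wt
  norm_num

theorem S_eq (k : ℕ) (T U : ℝ) (z : Fin k ⊕ Fin k → ℂ) : S k T U z = Q80.TM.SS k T U z := by
  unfold S Q80.TM.SS Q80.TM.ff Q80.TM.zp Q80.TM.zm Q97.MM.wt
  norm_num

theorem ak_eq (k : ℕ) : ak k = _root_.Q80.VS.ak k := rfl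

theorem transport_eq {k : ℕ} (p q : Fin k → ℝ → ℂ) : transport p q = _root_.Q80.VS.TT p q := by
  unfold transport _root_.Q80.VS.TT
  rw [_root_.Q80.VS.mm_eq]
  refine integral_congr_ae (Eventually.of_forall fun u => ?_)
  simp only
  rw [Fintype.prod_sum_type]
  rfl

theorem test_eq {k : ℕ} (p q : Fin k → ℝ → ℂ) (z : Fin k ⊕ Fin k → ℝ) :
    test p q z = (2 * Real.pi : ℂ) ^ (2 * k) * ∏ e, _root_.Q80.VS.fe p q e (z e) := by
  have hpi : (2 * Real.pi : ℂ) ≠ 0 := by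
    have : (Real.pi : ℂ) ≠ 0 := by exact_mod_cast Real.pi_ne_zero
    simp [this]
  have e1 : ∀ i : Fin k, _root_.Q80.VS.fe p q (Sum.inl i) (z (Sum.inl i)) =
      hat (p i) (z (Sum.inl i)) / (2 * Real.pi) := fun i => rfl
  have e2 : ∀ j : Fin k, _root_.Q80.VS.fe p q (Sum.inr j) (z (Sum.inr j)) =
      conj (hat (q j) (z (Sum.inr j))) / (2 * Real.pi) := fun j => by
    show conj (hat (q j) (z (Sum.inr j)) / (2 * Real.pi)) = _
    rw [map_div₀, map_mul, Complex.conj_ofReal, map_ofNat]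
  rw [Fintype.prod_sum_type]
  simp only [e1, e2, Finset.prod_div_distrib, Finset.prod_const, Finset.card_univ, Fintype.card_fin]
  unfold test
  rw [two_mul k, pow_add]
  field_simp

theorem result (k : ℕ) (hk : 1 ≤ k) (u : ℝ) (hu : 0 < u) (T U : ℕ → ℝ)
    (hT : Tendsto T atTop atTop)
    (hU : ∀ j, T j ^ u ≤ U j ∧ 1 ≤ U j ∧ U j ≤ T j / Real.log (T j)) :
    Multipliable (eulerFactor k) ∧
    (∀ p q : Fin k → ℝ → ℂ, Adm u p q →
      Tendsto (fun j => (∫ z : Fin k ⊕ Fin k → ℝ, test p q z * S k (T j) (U j) (fun e => (z e : ℂ))) /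
        (U j * Real.log (T j) ^ (k ^ 2) : ℝ)) atTop
        (𝓝 ((2 * Real.pi : ℂ) ^ (2 * k) * (√Real.pi * ak k : ℝ) * transport p q))) ∧
    ∃ φ : ℕ → ℕ, StrictMono φ ∧ ∃ Φ : (Fin k ⊕ Fin k → ℂ) → ℂ, Differentiable ℂ Φ ∧
      (∀ z, Tendsto (fun j => S k (T (φ j)) (U (φ j)) z / (M k (T (φ j)) (U (φ j)) : ℂ)) atTop
        (𝓝 (Φ z))) ∧
      ∃ lam : ℝ, 0 ≤ lam ∧
        Tendsto (fun j => √Real.pi * ak k * (U (φ j) * Real.log (T (φ j)) ^ (k ^ 2)) /
          M k (T (φ j)) (U (φ j))) atTop (𝓝 lam) ∧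
        ∀ p q : Fin k → ℝ → ℂ, Adm u p q → ∀ σ : Equiv.Perm (Fin k ⊕ Fin k),
          ∫ z : Fin k ⊕ Fin k → ℝ, Psi Φ ((fun e => (z e : ℂ)) ∘ σ) *
            (Complex.exp (-(Complex.I / 2 * ((∑ i : Fin k, (z (Sum.inl i) : ℂ)) -
              ∑ i : Fin k, (z (Sum.inr i) : ℂ)))) * test p q z) =
            (2 * Real.pi : ℂ) ^ (2 * k) * lam * transport p q := by
  have hU' : ∀ j, 1 ≤ U j ∧ U j ≤ T j / Real.log (T j) := fun j => (hU j).2
  have hUu : ∀ j, T j ^ u ≤ U j := fun j => (hU j).1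
  have hJ := Q80.TM.seq_ev (Q80.TM.JJ_pos k) hT hU'
  -- the data of an admissible pair
  have hadm : ∀ p q : Fin k → ℝ → ℂ, Adm u p q → ∃ ξ η : Fin k → ℝ,
      (∀ i, W182.KO.TF (ξ i) (p i)) ∧ (∀ i, W182.KO.TF (η i) (q i)) ∧ (∀ i, 0 ≤ ξ i) ∧
        (∀ i, 0 ≤ η i) ∧ ∑ i, ξ i < u := by
    rintro p q ⟨hp, hq, θ, hθ, hθu⟩
    choose η hη0 hη using fun i => _root_.Q80.SP.Tst.tf (hq i)
    exact ⟨θ, η, fun i => ⟨(hp i).1, (hp i).2, (hθ i).2⟩, hη, fun i => (hθ i).1, hη0, hθu⟩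
  refine ⟨(_root_.Q80.VS.eul_hasProd hk).multipliable, ?_, ?_⟩
  · intro p q hpq
    obtain ⟨ξ, η, hp, hq, hξ, hη, hs⟩ := hadm p q hpq
    have key : Tendsto (fun j => (∫ z : Fin k ⊕ Fin k → ℝ,
        (∏ e, _root_.Q80.VS.fe p q e (z e)) * Q80.TM.SS k (T j) (U j) (fun e => (z e : ℂ))) /
        (U j * Real.log (T j) ^ (k ^ 2) : ℝ)) atTop
        (𝓝 ((√Real.pi : ℂ) * _root_.Q80.VS.mt p q)) := by
      rw [tendsto_iff_norm_sub_tendsto_zero, Metric.tendsto_nhds]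
      intro ε hε
      filter_upwards [hT.eventually (_root_.Q80.VS.main_mean hk hp hq hξ hη hs (half_pos hε)),
        Q80.TM.seq_ev (p := fun T U => Q97.MM.Adm T U) (Eventually.of_forall fun T U h => h) hT hU',
        hT.eventually_ge_atTop 4] with j h1 h2 h3
      have h4 := h1 _ h2 (hUu j)
      have hL : 1 ≤ Real.log (T j) := _root_.Q80.VS.log_one h3
      have hN : 0 < U j * Real.log (T j) ^ (k ^ 2) := by
        have := h2.pos
        positivity
      have hNc : ((U j * Real.log (T j) ^ (k ^ 2) : ℝ) : ℂ) ≠ 0 := Complex.ofReal_ne_zero.2 hN.ne'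
      have e1 : (∫ z : Fin k ⊕ Fin k → ℝ,
          (∏ e, _root_.Q80.VS.fe p q e (z e)) * Q80.TM.SS k (T j) (U j) (fun e => (z e : ℂ))) /
          (U j * Real.log (T j) ^ (k ^ 2) : ℝ) - (√Real.pi : ℂ) * _root_.Q80.VS.mt p q =
          ((∫ z : Fin k ⊕ Fin k → ℝ,
          (∏ e, _root_.Q80.VS.fe p q e (z e)) * Q80.TM.SS k (T j) (U j) (fun e => (z e : ℂ))) -
          ((U j * √Real.pi * Real.log (T j) ^ (k ^ 2) : ℝ) : ℂ) * _root_.Q80.VS.mt p q) /
          ((U j * Real.log (T j) ^ (k ^ 2) : ℝ) : ℂ) := by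
        rw [sub_div]
        congr 1
        rw [eq_div_iff hNc]
        push_cast
        ring
      rw [dist_zero_right, norm_norm, e1, norm_div, Complex.norm_real, Real.norm_of_nonneg hN.le,
        div_lt_iff₀ hN]
      refine h4.trans_lt ?_
      nlinarith
    have key2 := key.const_mul ((2 * Real.pi : ℂ) ^ (2 * k))
    have e2 : (2 * Real.pi : ℂ) ^ (2 * k) * ((√Real.pi : ℂ) * _root_.Q80.VS.mt p q) =
        (2 * Real.pi : ℂ) ^ (2 * k) * (√Real.pi * ak k : ℝ) * transport p q := by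
      unfold _root_.Q80.VS.mt
      rw [_root_.Q80.VS.FH_zero hk, transport_eq, ak_eq]
      push_cast
      ring
    rw [e2] at key2
    refine key2.congr fun j => ?_
    rw [← mul_div_assoc, ← integral_const_mul]
    congr 1
    refine integral_congr_ae (Eventually.of_forall fun z => ?_)
    simp only
    rw [test_eq, S_eq]
    ring
  · obtain ⟨φ, hφ, Φ, hd, hlim⟩ := (Q80.TM.hs_gd hk hT hU').montel
    have hT' : Tendsto (fun j => T (φ j)) atTop atTop := hT.comp hφ.tendsto_atTop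
    have hU'' : ∀ j, 1 ≤ U (φ j) ∧ U (φ j) ≤ T (φ j) / Real.log (T (φ j)) := fun j => hU' (φ j)
    have hlim' : ∀ y, Tendsto (fun j => Q80.TM.hs k (fun j => T (φ j)) (fun j => U (φ j)) j y)
        atTop (𝓝 (Φ y)) := hlim
    obtain ⟨lam, hlam0, hlam, hv⟩ := _root_.Q80.VS.vertex hk hu hT' hU'' (fun j => hUu (φ j)) hlim'
    refine ⟨φ, hφ, Φ, hd, fun z => ?_, lam, hlam0, ?_, ?_⟩
    · simp only [M_eq, S_eq]
      exact hlim z
    · refine hlam.congr fun j => ?_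
      rw [M_eq, ak_eq]
      unfold _root_.Q80.VS.rr
      ring
    · intro p q hpq σ
      obtain ⟨ξ, η, hp, hq, hξ, hη, hs⟩ := hadm p q hpq
      have h1 := hv ξ η p q hp hq hξ hη hs
      rw [transport_eq, mul_assoc, ← h1, ← integral_const_mul]
      refine integral_congr_ae (Eventually.of_forall fun z => ?_)
      simp only
      have h2 : Psi Φ ((fun e => (z e : ℂ)) ∘ σ) = Psi Φ (fun e => (z e : ℂ)) :=
        Q80.TM.Ps_symm hk hT' hU'' hlim' σ _
      rw [h2, test_eq]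
      unfold Psi
      rw [Complex.exp_neg]
      field_simp

end Pool.Agent.Results.MP_069854_nt.VertexSpectrum
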